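import Mathlib

/-!
# MP_7a7a2a_an: P²GD may stall at a non-stationary point of an apocalypse-free set

On the triangle with vertices `(0,0), (1,0), (-4,3)` and for `f(x,y) = x + y`, P²GD with Armijo
backtracking (`ᾱ = 1`, `β = 1/2`, `c = 24/25`), started at `(2/3, 0)`, has the iterates
`((2/3) 4^{-k}, 0)`, which converge to the non-stationary vertex `(0,0)`.
-/

namespace Pool.Agent.Results.MP_7a7a2a_an.P2GD

open Set Filter Topology
open scoped RealInnerProductSpace

/-- `ℝⁿ` with its Euclidean structure -/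
abbrev E (n : ℕ) := EuclideanSpace ℝ (Fin n)

variable {n : ℕ}

/-- the Bouligand tangent cone of `X` at `x` -/
def tangentCone (X : Set (E n)) (x : E n) : Set (E n) :=
  {v | ∃ (t : ℕ → ℝ) (w : ℕ → E n), (∀ k, 0 < t k) ∧ Antitone t ∧ Tendsto t atTop (𝓝 0) ∧
    Tendsto w atTop (𝓝 v) ∧ ∀ k, x + t k • w k ∈ X}

/-- `p` is a nearest point of `K` to `w` -/
def IsNearest (K : Set (E n)) (w p : E n) : Prop := p ∈ K ∧ ∀ q ∈ K, ‖w - p‖ ≤ ‖w - q‖

/-- `x` is stationary for the minimization of `f` over `X` -/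
def Stationary (X : Set (E n)) (f : E n → ℝ) (x : E n) : Prop :=
  ∀ v ∈ tangentCone X x, 0 ≤ ⟪gradient f x, v⟫

/-- `(x, (x_k), f)` is an apocalypse on `X` -/
structure IsApocalypse (X : Set (E n)) (x : E n) (xs : ℕ → E n) (f : E n → ℝ) : Prop where
  smooth : ∃ U, IsOpen U ∧ X ⊆ U ∧ ContDiffOn ℝ 1 f U
  mem : ∀ k, xs k ∈ X
  lim : Tendsto xs atTop (𝓝 x)
  measure : ∃ p : ℕ → E n, (∀ k, IsNearest (tangentCone X (xs k)) (-gradient f (xs k)) (p k)) ∧
    Tendsto (fun k => ‖p k‖) atTop (𝓝 0)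
  not_stationary : ¬ Stationary X f x

/-- `X` is apocalypse-free -/
def ApocalypseFree (X : Set (E n)) : Prop := ∀ x xs f, ¬ IsApocalypse X x xs f

/-- `x` is a sequence of iterates of P²GD on `X` for `f` with Armijo backtracking with
parameters `α` (the largest step size), `β`, `c`: `g k` is the selected projection of
`-∇f(x_k)` onto the tangent cone, `y k i` is the selected projection onto `X` for the trial
step size `α β^i`, and `j k` is the least `i` for which the Armijo condition holds. -/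
def IsRun (X : Set (E n)) (f : E n → ℝ) (α β c : ℝ) (x : ℕ → E n) : Prop :=
  ∃ (g : ℕ → E n) (y : ℕ → ℕ → E n) (j : ℕ → ℕ), ∀ k,
    IsNearest (tangentCone X (x k)) (-gradient f (x k)) (g k) ∧
    (∀ i, IsNearest X (x k + (α * β ^ i) • g k) (y k i)) ∧
    f (y k (j k)) ≤ f (x k) - c * (α * β ^ j k) * ‖g k‖ ^ 2 ∧
    (∀ i < j k, ¬ f (y k i) ≤ f (x k) - c * (α * β ^ i) * ‖g k‖ ^ 2) ∧
    x (k + 1) = y k (j k)

/-! ### convex sets are apocalypse-free -/

lemma zero_mem_tangentCone {X : Set (E n)} {x : E n} (hx : x ∈ X) : (0 : E n) ∈ tangentCone X x := by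
  refine ⟨fun k => 1 / ((k : ℝ) + 1), fun _ => 0, fun k => by positivity, ?_,
    tendsto_one_div_add_atTop_nhds_zero_nat, tendsto_const_nhds, fun k => by simpa using hx⟩
  intro a b hab
  exact one_div_le_one_div_of_le (by positivity) (by exact_mod_cast Nat.add_le_add_right hab 1)

lemma smul_mem_tangentCone {X : Set (E n)} {x v : E n} (hv : v ∈ tangentCone X x) {s : ℝ}
    (hs : 0 < s) : s • v ∈ tangentCone X x := by
  obtain ⟨t, w, h1, h2, h3, h4, h5⟩ := hv
  refine ⟨fun k => t k / s, fun k => s • w k, fun k => div_pos (h1 k) hs,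
    fun a b hab => div_le_div_of_nonneg_right (h2 hab) hs.le, ?_, h4.const_smul s, fun k => ?_⟩
  · simpa using h3.div_const s
  · rw [smul_smul, div_mul_cancel₀ _ hs.ne']
    exact h5 k

lemma sub_mem_tangentCone {X : Set (E n)} (hX : Convex ℝ X) {x z : E n} (hx : x ∈ X)
    (hz : z ∈ X) : z - x ∈ tangentCone X x := by
  refine ⟨fun k => 1 / ((k : ℝ) + 1), fun _ => z - x, fun k => by positivity, ?_,
    tendsto_one_div_add_atTop_nhds_zero_nat, tendsto_const_nhds, fun k => ?_⟩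
  · intro a b hab
    exact one_div_le_one_div_of_le (by positivity) (by exact_mod_cast Nat.add_le_add_right hab 1)
  · apply hX.add_smul_sub_mem hx hz
    constructor
    · positivity
    · rw [div_le_one (by positivity)]
      have : (0:ℝ) ≤ k := Nat.cast_nonneg k
      linarith

/-- `⟨w, v⟩ ≤ ‖P_T w‖ ‖v‖` for `v ∈ T` -/
lemma inner_le_of_nearest {X : Set (E n)} {x w p v : E n}
    (hp : IsNearest (tangentCone X x) w p) (hv : v ∈ tangentCone X x) :
    ⟪w, v⟫ ≤ ‖p‖ * ‖v‖ := by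
  by_contra hcon
  push Not at hcon
  have hwv : 0 < ⟪w, v⟫ := lt_of_le_of_lt (by positivity) hcon
  have hv0 : v ≠ 0 := by rintro rfl; simp at hwv
  have hvn : 0 < ‖v‖ ^ 2 := by positivity
  -- orthogonality
  have hsq : ∀ q ∈ tangentCone X x, ‖w - p‖ ^ 2 ≤ ‖w - q‖ ^ 2 := fun q hq =>
    pow_le_pow_left₀ (norm_nonneg _) (hp.2 q hq) 2
  have expand : ∀ (s : ℝ) (q : E n), ‖w - s • q‖ ^ 2 = ‖w‖ ^ 2 - 2 * s * ⟪w, q⟫ + s ^ 2 * ‖q‖ ^ 2 := by
    intro s q
    rw [norm_sub_sq_real, inner_smul_right, norm_smul, mul_pow, Real.norm_eq_abs, sq_abs]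
    ring
  have hpp : ⟪w, p⟫ ≤ ‖p‖ ^ 2 := by
    -- compare with `s p`, `s < 1`
    by_contra h
    push Not at h
    have h0 : ∀ s : ℝ, 0 < s →
        ‖w‖ ^ 2 - 2 * ⟪w, p⟫ + ‖p‖ ^ 2 ≤ ‖w‖ ^ 2 - 2 * s * ⟪w, p⟫ + s ^ 2 * ‖p‖ ^ 2 := by
      intro s hs
      have h1 := hsq (s • p) (smul_mem_tangentCone hp.1 hs)
      rw [expand] at h1
      have h2 := expand 1 p
      rw [one_smul] at h2
      rw [h2] at h1
      linarith
    by_cases hp0 : ‖p‖ ^ 2 = 0
    · have := h0 2 (by norm_num)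
      rw [hp0] at this h
      linarith
    · have hpp0 : 0 < ‖p‖ ^ 2 := lt_of_le_of_ne (by positivity) (Ne.symm hp0)
      have := h0 (⟪w, p⟫ / ‖p‖ ^ 2) (div_pos (hpp0.trans h) hpp0)
      set a := ⟪w, p⟫
      set b := ‖p‖ ^ 2
      have e : -2 * (a / b) * a + (a / b) ^ 2 * b = -(a ^ 2 / b) := by field_simp; ring
      have h3 : a ^ 2 / b ≤ 2 * a - b := by nlinarith
      rw [div_le_iff₀ hpp0] at h3
      nlinarith [sq_nonneg (a - b)]
  have h1 := hsq ((⟪w, v⟫ / ‖v‖ ^ 2) • v) (smul_mem_tangentCone hv (div_pos hwv hvn))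
  rw [expand] at h1
  have h2 := expand 1 p
  rw [one_smul] at h2
  rw [h2] at h1
  have hb : (‖p‖ * ‖v‖) ^ 2 < ⟪w, v⟫ ^ 2 := pow_lt_pow_left₀ hcon (by positivity) (by norm_num)
  rw [mul_pow] at hb
  set a := ⟪w, v⟫
  set b := ‖v‖ ^ 2
  have e : -2 * (a / b) * a + (a / b) ^ 2 * b = -(a ^ 2 / b) := by field_simp; ring
  have h3 : a ^ 2 / b ≤ 2 * ⟪w, p⟫ - ‖p‖ ^ 2 := by nlinarith
  have h4 : a ^ 2 / b ≤ ‖p‖ ^ 2 := by linarith
  rw [div_le_iff₀ hvn] at h4
  linarith

lemma apocalypseFree_of_convex {X : Set (E n)} (hX : Convex ℝ X) (hc : IsClosed X) :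
    ApocalypseFree X := by
  rintro x xs f ⟨⟨U, hU, hXU, hf⟩, hmem, hlim, ⟨p, hp, hp0⟩, hns⟩
  apply hns
  have hx : x ∈ X := hc.mem_of_tendsto hlim (Eventually.of_forall hmem)
  have hgc : ContinuousAt (gradient f) x := by
    have h1 : ContinuousOn (fderiv ℝ f) U := hf.continuousOn_fderiv_of_isOpen hU (by norm_num)
    have h2 : ContinuousAt (fderiv ℝ f) x := h1.continuousAt (hU.mem_nhds (hXU hx))
    exact ((InnerProductSpace.toDual ℝ (E n)).symm.continuous.continuousAt).comp h2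
  have key : ∀ z ∈ X, 0 ≤ ⟪gradient f x, z - x⟫ := by
    intro z hz
    have h1 : ∀ k, ⟪-gradient f (xs k), z - xs k⟫ ≤ ‖p k‖ * ‖z - xs k‖ := fun k =>
      inner_le_of_nearest (hp k) (sub_mem_tangentCone hX (hmem k) hz)
    have h2 : Tendsto (fun k => ⟪-gradient f (xs k), z - xs k⟫) atTop
        (𝓝 ⟪-gradient f x, z - x⟫) :=
      ((hgc.tendsto.comp hlim).neg).inner (tendsto_const_nhds.sub hlim)
    have h3 : Tendsto (fun k => ‖p k‖ * ‖z - xs k‖) atTop (𝓝 (0 * ‖z - x‖)) :=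
      hp0.mul (tendsto_const_nhds.sub hlim).norm
    have h4 := le_of_tendsto_of_tendsto' h2 h3 h1
    rw [zero_mul, inner_neg_left] at h4
    linarith
  rintro v ⟨t, w, ht, -, -, hw, hmemX⟩
  have h1 : ∀ k, 0 ≤ ⟪gradient f x, w k⟫ := by
    intro k
    have h2 := key _ (hmemX k)
    rw [add_sub_cancel_left, inner_smul_right] at h2
    exact nonneg_of_mul_nonneg_right h2 (ht k)
  have h2 : Tendsto (fun k => ⟪gradient f x, w k⟫) atTop (𝓝 ⟪gradient f x, v⟫) :=
    tendsto_const_nhds.inner hw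
  exact ge_of_tendsto' h2 h1

/-! ### the example -/

/-- the triangle with vertices `(0,0)`, `(1,0)`, `(-4,3)` -/
def Tri : Set (E 2) := {x | 0 ≤ x 1 ∧ 0 ≤ 3 * x 0 + 4 * x 1 ∧ 3 * x 0 + 5 * x 1 ≤ 3}

/-- the objective -/
def obj (x : E 2) : ℝ := x 0 + x 1

lemma inn (x v : E 2) : ⟪x, v⟫ = x 0 * v 0 + x 1 * v 1 := by
  rw [PiLp.inner_apply, Fin.sum_univ_two]
  simp [mul_comm]

lemma nsq (x : E 2) : ‖x‖ ^ 2 = (x 0) ^ 2 + (x 1) ^ 2 := by
  rw [EuclideanSpace.real_norm_sq_eq, Fin.sum_univ_two]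

lemma obj_fderiv (x : E 2) : HasFDerivAt obj
    ((EuclideanSpace.proj (𝕜 := ℝ) (0 : Fin 2) : E 2 →L[ℝ] ℝ)
      + (EuclideanSpace.proj (𝕜 := ℝ) (1 : Fin 2) : E 2 →L[ℝ] ℝ)) x := by
  have h0 : HasFDerivAt (fun x : E 2 => x 0) (EuclideanSpace.proj (𝕜 := ℝ) (0 : Fin 2)) x :=
    (EuclideanSpace.proj (𝕜 := ℝ) (0 : Fin 2)).hasFDerivAt
  have h1 : HasFDerivAt (fun x : E 2 => x 1) (EuclideanSpace.proj (𝕜 := ℝ) (1 : Fin 2)) x :=
    (EuclideanSpace.proj (𝕜 := ℝ) (1 : Fin 2)).hasFDerivAt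
  exact h0.fun_add h1

lemma obj_gradient (x : E 2) : gradient obj x = !₂[1, 1] := by
  apply HasGradientAt.gradient
  rw [hasGradientAt_iff_hasFDerivAt]
  refine (obj_fderiv x).congr_fderiv ?_
  ext v
  simp only [InnerProductSpace.toDual_apply_apply, add_apply]
  rw [inn]
  show v 0 + v 1 = _
  simp

lemma obj_contDiff : ContDiff ℝ 1 obj := by
  have h0 : ContDiff ℝ 1 (fun x : E 2 => x 0) :=
    (EuclideanSpace.proj (𝕜 := ℝ) (0 : Fin 2)).contDiff
  have h1 : ContDiff ℝ 1 (fun x : E 2 => x 1) :=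
    (EuclideanSpace.proj (𝕜 := ℝ) (1 : Fin 2)).contDiff
  exact h0.add h1

lemma cont_coord (i : Fin 2) : Continuous fun x : E 2 => x i :=
  (EuclideanSpace.proj (𝕜 := ℝ) i).continuous

lemma tri_closed : IsClosed Tri := by
  have c0 := cont_coord 0
  have c1 := cont_coord 1
  have e : Tri = {x : E 2 | 0 ≤ x 1} ∩ ({x : E 2 | 0 ≤ 3 * x 0 + 4 * x 1} ∩
      {x : E 2 | 3 * x 0 + 5 * x 1 ≤ 3}) := rfl
  rw [e]
  refine (isClosed_le continuous_const c1).inter ((isClosed_le continuous_const ?_).inter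
    (isClosed_le ?_ continuous_const))
  · exact (continuous_const.mul c0).add (continuous_const.mul c1)
  · exact (continuous_const.mul c0).add (continuous_const.mul c1)

lemma tri_convex : Convex ℝ Tri := by
  rintro x ⟨h1, h2, h3⟩ y ⟨h4, h5, h6⟩ a b ha hb hab
  simp only [Tri, mem_ofPred_eq, PiLp.add_apply, PiLp.smul_apply, smul_eq_mul]
  have hb' : b = 1 - a := by linarith
  refine ⟨by positivity, ?_, ?_⟩
  · have := mul_nonneg ha h2
    have := mul_nonneg hb h5
    nlinarith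
  · have := mul_le_mul_of_nonneg_left h3 ha
    have := mul_le_mul_of_nonneg_left h6 hb
    nlinarith

lemma tri_bdd : Bornology.IsBounded Tri := by
  refine (Metric.isBounded_closedBall (x := (0 : E 2)) (r := 5)).subset ?_
  rintro x ⟨h1, h2, h3⟩
  rw [Metric.mem_closedBall, dist_zero_right]
  have h4 : x 1 ≤ 3 := by linarith
  have h5 : x 0 ≤ 1 := by linarith
  have h6 : -4 ≤ x 0 := by linarith
  have h7 : ‖x‖ ^ 2 ≤ 5 ^ 2 := by rw [nsq]; nlinarith
  by_contra h
  push Not at h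
  nlinarith

/-- a sufficient condition for nearest points -/
lemma nearest_of {K : Set (E 2)} {w p : E 2} (hp : p ∈ K) (h : ∀ q ∈ K, ⟪w - p, q - p⟫ ≤ 0) :
    IsNearest K w p := by
  refine ⟨hp, fun q hq => ?_⟩
  have h1 := h q hq
  have h2 : ‖w - q‖ ^ 2 = ‖w - p‖ ^ 2 - 2 * ⟪w - p, q - p⟫ + ‖q - p‖ ^ 2 := by
    have : w - q = (w - p) - (q - p) := by abel
    rw [this, norm_sub_sq_real]
  by_contra hcon
  push Not at hcon
  nlinarith [norm_nonneg (w - q), norm_nonneg (w - p), sq_nonneg ‖q - p‖]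

/-- the direction -/
noncomputable def dir : E 2 := !₂[-1, 0]

/-- the radii -/
noncomputable def rad (k : ℕ) : ℝ := 2 / 3 * (1 / 4) ^ k

lemma rad_pos (k : ℕ) : 0 < rad k := by unfold rad; positivity

lemma rad_lt (k : ℕ) : rad k < 1 := by
  unfold rad
  have : ((1:ℝ) / 4) ^ k ≤ 1 := pow_le_one₀ (by norm_num) (by norm_num)
  linarith

/-- the iterates -/
noncomputable def it (k : ℕ) : E 2 := !₂[rad k, 0]

/-- the trial points -/
noncomputable def trial (k i : ℕ) : E 2 :=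
  if ((1:ℝ) / 2) ^ i ≤ rad k then !₂[rad k - (1 / 2) ^ i, 0]
  else !₂[-(16 * ((1 / 2) ^ i - rad k) / 25), 12 * ((1 / 2) ^ i - rad k) / 25]

lemma tangent_nonneg {r : ℝ} {v : E 2} (hv : v ∈ tangentCone Tri !₂[r, 0]) : 0 ≤ v 1 := by
  obtain ⟨t, w, ht, -, -, hw, hm⟩ := hv
  have h1 : ∀ k, 0 ≤ (w k) 1 := by
    intro k
    have h2 := (hm k).1
    simp only [PiLp.add_apply, PiLp.smul_apply, smul_eq_mul] at h2
    simp at h2
    exact nonneg_of_mul_nonneg_right h2 (ht k)
  have h3 : Tendsto (fun k => (w k) 1) atTop (𝓝 (v 1)) := ((cont_coord 1).tendsto v).comp hw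
  exact ge_of_tendsto' h3 h1

lemma dir_mem {r : ℝ} (h0 : 0 < r) (h1 : r < 1) : dir ∈ tangentCone Tri !₂[r, 0] := by
  refine ⟨fun k => r / ((k : ℝ) + 1), fun _ => dir, fun k => by positivity, ?_, ?_,
    tendsto_const_nhds, fun k => ?_⟩
  · intro a b hab
    exact div_le_div_of_nonneg_left h0.le (by positivity)
      (by exact_mod_cast Nat.add_le_add_right hab 1)
  · have := (tendsto_one_div_add_atTop_nhds_zero_nat (𝕜 := ℝ)).const_mul r
    rw [mul_zero] at this
    refine this.congr fun k => ?_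
    rw [mul_one_div]
  · have h2 : r / ((k : ℝ) + 1) ≤ r := by
      apply div_le_self h0.le
      have : (0:ℝ) ≤ k := Nat.cast_nonneg k
      linarith
    have h3 : 0 < r / ((k : ℝ) + 1) := by positivity
    refine ⟨?_, ?_, ?_⟩
    · simp [dir]
    · simp [dir]; linarith
    · simp [dir]; linarith

lemma dir_nearest {r : ℝ} (h0 : 0 < r) (h1 : r < 1) :
    IsNearest (tangentCone Tri !₂[r, 0]) (-gradient obj !₂[r, 0]) dir := by
  apply nearest_of (dir_mem h0 h1)
  intro q hq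
  have h2 := tangent_nonneg hq
  rw [obj_gradient, inn]
  simp [dir]
  exact h2

lemma trial_nearest (k i : ℕ) :
    IsNearest Tri (it k + (1 * (1 / 2 : ℝ) ^ i) • dir) (trial k i) := by
  have hr := rad_pos k
  have hr1 := rad_lt k
  have hp : 0 < ((1:ℝ) / 2) ^ i := by positivity
  have hp1 : ((1:ℝ) / 2) ^ i ≤ 1 := pow_le_one₀ (by norm_num) (by norm_num)
  unfold trial
  split_ifs with h
  · have e : it k + (1 * (1 / 2 : ℝ) ^ i) • dir = !₂[rad k - (1 / 2) ^ i, 0] := by
      ext j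
      fin_cases j
      · simp [it, dir]; ring
      · simp [it, dir]
    rw [e]
    refine ⟨⟨?_, ?_, ?_⟩, fun q _ => by simp⟩
    · simp
    · simp; simpa using h
    · simp
      have : 0 < ((2:ℝ) ^ i)⁻¹ := by positivity
      linarith
  · push Not at h
    set u := (1 / 2 : ℝ) ^ i - rad k with hu
    have hu0 : 0 < u := by linarith
    have hu1 : u < 1 := by linarith
    apply nearest_of
    · refine ⟨?_, ?_, ?_⟩
      · simp; positivity
      · simp; linarith
      · simp; linarith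
    · rintro q ⟨hq1, hq2, hq3⟩
      have e : it k + (1 * (1 / 2 : ℝ) ^ i) • dir = !₂[-u, 0] := by
        ext j
        fin_cases j
        · simp [it, dir, hu]; ring
        · simp [it, dir]
      rw [e, inn]
      simp
      nlinarith

/-- **MP_7a7a2a_an, Q1 (disproof).** There are a nonempty closed (even compact convex)
apocalypse-free set `X ⊂ ℝ²`, a function `f` which is continuously differentiable with locally
Lipschitz gradient near `X`, parameters `α > 0`, `β, c ∈ (0,1)` and a sequence `x` of P²GD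
iterates with Armijo backtracking (terminating at every iteration), started at a point `x 0 ∈ X`
with bounded sublevel set, with a non-stationary accumulation point `z`. -/
theorem result : ∃ (X : Set (E 2)) (f : E 2 → ℝ) (α β c : ℝ) (x : ℕ → E 2) (z : E 2),
    X.Nonempty ∧ IsClosed X ∧ Convex ℝ X ∧ ApocalypseFree X ∧
    (∃ U, IsOpen U ∧ X ⊆ U ∧ ContDiffOn ℝ 1 f U ∧ LocallyLipschitzOn U (gradient f)) ∧
    x 0 ∈ X ∧ Bornology.IsBounded {y | y ∈ X ∧ f y ≤ f (x 0)} ∧
    0 < α ∧ 0 < β ∧ β < 1 ∧ 0 < c ∧ c < 1 ∧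
    IsRun X f α β c x ∧ z ∈ X ∧ MapClusterPt z atTop x ∧ ¬ Stationary X f z := by
  refine ⟨Tri, obj, 1, 1 / 2, 24 / 25, it, 0, ?_, tri_closed, tri_convex,
    apocalypseFree_of_convex tri_convex tri_closed, ?_, ?_, ?_, by norm_num, by norm_num,
    by norm_num, by norm_num, by norm_num, ?_, ?_, ?_, ?_⟩
  · exact ⟨0, by simp [Tri]⟩
  · refine ⟨univ, isOpen_univ, subset_univ _, obj_contDiff.contDiffOn, ?_⟩
    have : gradient obj = fun _ => !₂[1, 1] := by ext1 x; exact obj_gradient x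
    rw [this]
    exact (LocallyLipschitz.const _).locallyLipschitzOn
  · refine ⟨?_, ?_, ?_⟩
    · simp [it]
    · simp [it, rad]; norm_num
    · simp [it, rad]; norm_num
  · exact tri_bdd.subset fun y hy => hy.1
  · refine ⟨fun _ => dir, trial, fun k => 2 * k + 1, fun k => ⟨dir_nearest (rad_pos k) (rad_lt k),
      fun i => trial_nearest k i, ?_, ?_, ?_⟩⟩
    · have e1 : ((1:ℝ) / 2) ^ (2 * k + 1) = 1 / 2 * (1 / 4) ^ k := by
        rw [pow_succ, pow_mul]; norm_num; ring
      have hp : 0 < ((1:ℝ) / 4) ^ k := by positivity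
      have hle : ((1:ℝ) / 2) ^ (2 * k + 1) ≤ rad k := by rw [e1]; unfold rad; linarith
      have hd : ‖dir‖ ^ 2 = 1 := by rw [nsq]; simp [dir]
      rw [hd]
      unfold trial
      rw [if_pos hle]
      simp only [obj, it]
      simp only [Matrix.cons_val_zero, Matrix.cons_val_one]
      have : 0 < ((1:ℝ) / 2) ^ (2 * k + 1) := by positivity
      linarith
    · intro i hi
      have hi' : i < 2 * k + 1 := hi
      have e1 : ((1:ℝ) / 2) ^ (2 * k) = (1 / 4) ^ k := by
        rw [pow_mul]; norm_num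
      have h1 : ((1:ℝ) / 2) ^ (2 * k) ≤ (1 / 2) ^ i :=
        pow_le_pow_of_le_one (by norm_num) (by norm_num) (by omega)
      rw [e1] at h1
      have hp : 0 < ((1:ℝ) / 4) ^ k := by positivity
      have hgt : ¬ ((1:ℝ) / 2) ^ i ≤ rad k := by
        unfold rad; push Not; linarith
      have hd : ‖dir‖ ^ 2 = 1 := by rw [nsq]; simp [dir]
      rw [hd]
      unfold trial
      rw [if_neg hgt]
      simp only [obj, it]
      simp only [Matrix.cons_val_zero, Matrix.cons_val_one]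
      push Not
      unfold rad
      linarith
    · have e1 : ((1:ℝ) / 2) ^ (2 * k + 1) = 1 / 2 * (1 / 4) ^ k := by
        rw [pow_succ, pow_mul]; norm_num; ring
      have hp : 0 < ((1:ℝ) / 4) ^ k := by positivity
      have hle : ((1:ℝ) / 2) ^ (2 * k + 1) ≤ rad k := by rw [e1]; unfold rad; linarith
      unfold trial it
      rw [if_pos hle, e1]
      congr 2
      unfold rad
      rw [pow_succ]
      congr 1
      ring
  · simp [Tri]
  · have h1 : Tendsto it atTop (𝓝 0) := by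
      have h2 : Tendsto rad atTop (𝓝 0) := by
        have := (tendsto_pow_atTop_nhds_zero_of_lt_one (r := (1:ℝ) / 4) (by norm_num)
          (by norm_num)).const_mul (2 / 3)
        rw [mul_zero] at this
        exact this
      have h3 : it = fun k => rad k • (EuclideanSpace.single (0 : Fin 2) (1 : ℝ) : E 2) := by
        ext k j
        fin_cases j
        · simp [it]
        · simp [it]
      rw [h3]
      have := h2.smul_const (EuclideanSpace.single (0 : Fin 2) (1 : ℝ) : E 2)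
      simpa using this
    exact h1.mapClusterPt
  · intro hst
    have hm : (!₂[-4, 3] : E 2) ∈ Tri := by
      refine ⟨?_, ?_, ?_⟩ <;> simp <;> norm_num
    have h0 : (0 : E 2) ∈ Tri := by simp [Tri]
    have := hst _ (sub_mem_tangentCone tri_convex h0 hm)
    rw [obj_gradient, inn] at this
    simp at this
    norm_num at this

end Pool.Agent.Results.MP_7a7a2a_an.P2GD
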